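import Mathlib

/-!
# MP_96acc4: weak `P_{κ⁺}`-points are prime below products of ultrafilters on `κ`

If `u` is a weak `P_{κ⁺}`-point of `ω*` and `u` is Rudin-Keisler below a finite iterated product
of ultrafilters on `κ`, then `u` is Rudin-Keisler below one of the factors.
-/

open Cardinal Set

namespace Pool.Agent.Results.MP_96acc4_lc.ProductsBelow

/-- The Rudin-Keisler order: `u ≤ v` iff `u` is the image of `v` under some map. -/
def RK {X Y : Type} (u : Ultrafilter Y) (v : Ultrafilter X) : Prop :=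
  ∃ f : X → Y, u = v.map f

/-- The product `v ⊗ w`; see `mem_tensor`. -/
def tensor {X Y : Type} (v : Ultrafilter X) (w : Ultrafilter Y) : Ultrafilter (X × Y) :=
  v.bind (fun x => w.map (fun y => (x, y)))

/-- `A ∈ v ⊗ w` iff `{x : {y : (x, y) ∈ A} ∈ w} ∈ v`. -/
theorem mem_tensor {X Y : Type} (v : Ultrafilter X) (w : Ultrafilter Y) (A : Set (X × Y)) :
    A ∈ tensor v w ↔ {x | {y | (x, y) ∈ A} ∈ w} ∈ v := Iff.rfl

/-- The iterated product `v 0 ⊗ (v 1 ⊗ (⋯ ⊗ v (n - 1)))`, as an ultrafilter on `Kⁿ`; the empty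
product is the ultrafilter on a one-point set. -/
def iterated {K : Type} : (n : ℕ) → (Fin n → Ultrafilter K) → Ultrafilter (Fin n → K)
  | 0, _ => pure Fin.elim0
  | n + 1, v =>
    (tensor (v 0) (iterated n (fun i => v i.succ))).map
      (fun p => (Fin.cons p.1 p.2 : Fin (n + 1) → K))

/-- `u` is non-principal. -/
def NonPrincipal (u : Ultrafilter ℕ) : Prop := ∀ n, u ≠ pure n

/-- `u` is a weak `P_{κ⁺}`-point of `ω*`: it is non-principal and not in the closure (in `βω`) of
any set `F` of at most `κ` non-principal ultrafilters different from `u`. -/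
def IsWeakPPoint (κ : Cardinal.{0}) (u : Ultrafilter ℕ) : Prop :=
  NonPrincipal u ∧ ∀ F : Set (Ultrafilter ℕ), (∀ w ∈ F, NonPrincipal w ∧ w ≠ u) →
    #F ≤ κ → u ∉ closure F

/-- A limit along `v` of at most `κ` many points equals a weak `P_{κ⁺}`-point only in the trivial
ways. -/
theorem key {κ : Cardinal.{0}} {X : Type} (hX : #X ≤ κ) {u : Ultrafilter ℕ}
    (hu : IsWeakPPoint κ u) (v : Ultrafilter X) (m : X → Ultrafilter ℕ)
    (h : ∀ A : Set ℕ, A ∈ u ↔ {x | A ∈ m x} ∈ v) :
    RK u v ∨ ∃ x, u = m x := by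
  classical
  by_cases h1 : {x | u = m x} ∈ v
  · right
    obtain ⟨x, hx⟩ := Ultrafilter.nonempty_of_mem h1
    exact ⟨x, hx⟩
  left
  by_cases h2 : {x | ∃ n, m x = pure n} ∈ v
  · refine ⟨fun x => if hx : ∃ n, m x = pure n then hx.choose else 0, ?_⟩
    refine Ultrafilter.ext fun A => ?_
    rw [h A, Ultrafilter.mem_map]
    constructor
    · intro hA
      filter_upwards [hA, h2] with x hx1 hx2
      have hc := hx2.choose_spec
      simp only [mem_preimage, dif_pos hx2]
      rw [hc] at hx1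
      exact hx1
    · intro hA
      filter_upwards [hA, h2] with x hx1 hx2
      have hc := hx2.choose_spec
      simp only [mem_preimage, dif_pos hx2] at hx1
      rw [hc]
      exact hx1
  exfalso
  have h1' := (Ultrafilter.compl_mem_iff_notMem).mpr h1
  have h2' := (Ultrafilter.compl_mem_iff_notMem).mpr h2
  refine hu.2 (m '' ({x | u = m x}ᶜ ∩ {x | ∃ n, m x = pure n}ᶜ)) ?_ ?_ ?_
  · rintro _ ⟨x, ⟨hx1, hx2⟩, rfl⟩
    exact ⟨fun n hn => hx2 ⟨n, hn⟩, fun he => hx1 he.symm⟩
  · exact (mk_image_le.trans (mk_set_le _)).trans hX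
  · rw [(ultrafilterBasis_is_basis).mem_closure_iff]
    rintro _ ⟨A, rfl⟩ hA
    have h3 := (h A).mp hA
    obtain ⟨x, hx, hx'⟩ := Ultrafilter.nonempty_of_mem
      (Filter.inter_mem h3 (Filter.inter_mem h1' h2'))
    exact ⟨m x, hx, ⟨x, hx', rfl⟩⟩

/-- **Main theorem** (positive answer to Q1). Let `K` be an infinite set, `κ = #K`, let `u` be a
weak `P_{κ⁺}`-point of `ω*` and let `v 0, …, v n` be ultrafilters on `K`. If `u` is
Rudin-Keisler below `v 0 ⊗ ⋯ ⊗ v n`, then it is Rudin-Keisler below some `v k`. -/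
theorem result (K : Type) [Infinite K] (u : Ultrafilter ℕ) (hu : IsWeakPPoint #K u)
    (n : ℕ) (v : Fin (n + 1) → Ultrafilter K) (h : RK u (iterated (n + 1) v)) :
    ∃ k, RK u (v k) := by
  induction n with
  | zero =>
    obtain ⟨f, hf⟩ := h
    rcases key le_rfl hu (v 0)
      (fun x => (iterated 0 (fun i => v i.succ)).map
        (fun t => f (Fin.cons x t : Fin (0 + 1) → K))) (fun A => by rw [hf]; rfl) with h1 | h1
    · exact ⟨0, h1⟩
    · obtain ⟨x, hx⟩ := h1
      exact absurd hx (hu.1 _)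
  | succ n ih =>
    obtain ⟨f, hf⟩ := h
    rcases key le_rfl hu (v 0)
      (fun x => (iterated (n + 1) (fun i => v i.succ)).map
        (fun t => f (Fin.cons x t : Fin (n + 1 + 1) → K))) (fun A => by rw [hf]; rfl) with h1 | h1
    · exact ⟨0, h1⟩
    · obtain ⟨x, hx⟩ := h1
      obtain ⟨k, hk⟩ := ih (fun i => v i.succ) ⟨_, hx⟩
      exact ⟨k.succ, hk⟩

end Pool.Agent.Results.MP_96acc4_lc.ProductsBelow
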